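import Pool.Agent.Helper34.KV.V1

set_option autoImplicit false

/-!
The cubic families with weights: a list of terms `(C, G, mu, D)` for each type of roots; `C` and
`G` are packed vectors of digits, the numerators of the weights of the classes, with the
denominator `D`.  Semantics and invariance.
-/

namespace KC.U

open Finset

/-- Digit. -/
def dg (s a : Nat) : Nat := ent s 16 65535 a

theorem dg_bit (s a u : Nat) : (dg s a).testBit u = (decide (u < 16) && s.testBit (16 * a + u)) := by
  have h : dg s a = (s >>> (16 * a)) % 2 ^ 16 := land_mod (s >>> (16 * a)) 16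
  rw [h, Nat.testBit_mod_two_pow, Nat.testBit_shiftRight]

theorem dg_lt (s a : Nat) : dg s a < 2 ^ 16 := by
  have h : dg s a = (s >>> (16 * a)) % 2 ^ 16 := land_mod (s >>> (16 * a)) 16
  rw [h]
  exact Nat.mod_lt _ (by norm_num)

/-- Digits of a packed sum. -/
theorem digs (B : Nat) (f : Nat → Nat) : ∀ n, (∀ i < n, f i < 2 ^ B) →
    (∑ i ∈ range n, f i * 2 ^ (B * i)) < 2 ^ (B * n) ∧
    ∀ a < n, ∀ u < B, (∑ i ∈ range n, f i * 2 ^ (B * i)).testBit (B * a + u) = (f a).testBit u
  | 0, _ => by simp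
  | n + 1, h => by
    obtain ⟨h1, h2⟩ := digs B f n (fun i hi => h i (by omega))
    have hn := h n (by omega)
    rw [Finset.sum_range_succ]
    refine ⟨?_, fun a ha u hu => ?_⟩
    · have h3 : f n + 1 ≤ 2 ^ B := hn
      have h4 : f n * 2 ^ (B * n) + 2 ^ (B * n) ≤ 2 ^ B * 2 ^ (B * n) := by
        have := Nat.mul_le_mul_right (2 ^ (B * n)) h3
        calc f n * 2 ^ (B * n) + 2 ^ (B * n) = (f n + 1) * 2 ^ (B * n) := by ring
          _ ≤ _ := this
      have h5 : 2 ^ B * 2 ^ (B * n) = 2 ^ (B * (n + 1)) := by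
        rw [← pow_add]; congr 1; ring
      omega
    · rw [add_comm, mul_comm (f n), Nat.testBit_two_pow_mul_add _ h1]
      by_cases han : a < n
      · have h6 : B * a + u < B * n := by
          calc B * a + u < B * a + B := by omega
            _ = B * (a + 1) := by ring
            _ ≤ B * n := Nat.mul_le_mul_left _ han
        rw [if_pos h6, h2 a han u hu]
      · have h7 : a = n := by omega
        subst h7
        rw [if_neg (by omega)]
        congr 1
        omega

/-- Term: `(C, G, mu, D)`. -/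
abbrev Tm : Type := Nat × Nat × Nat × Nat

/-- All three in `C`. -/
def fR (_ _ ca _ cb _ cc : Nat) : Nat := ca * cb * cc
/-- One in `G`, the others in `C`. -/
def fT (_ ga ca gb cb gc cc : Nat) : Nat := ga * cb * cc + ca * gb * cc + ca * cb * gc
/-- One in `G`, another one in `C`. -/
def fP (D ga ca gb cb gc cc : Nat) : Nat :=
  D * (ga * (cb + cc) + gb * (ca + cc) + gc * (ca + cb))

/-- Sum over the list of terms. -/
def LX (F : Nat → Nat → Nat → Nat → Nat → Nat → Nat → Nat) (l : List Tm)
    (a b c : Nat) : Nat :=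
  (l.map fun k => k.2.2.1 * F k.2.2.2 (dg k.2.1 a) (dg k.1 a) (dg k.2.1 b) (dg k.1 b)
    (dg k.2.1 c) (dg k.1 c)).sum

/-- The value of kind `i` for the constant `q / p`: 0 = no edge, 1 = edge, 2 = slope. -/
def kv (p q i R T P : Nat) : ℤ :=
  if i = 0 then (q : ℤ) * R - q * T
  else if i = 1 then (p : ℤ) * P - (p + q) * T - (p - q) * R
  else (R : ℤ) - T

/-- The value for a list of terms. -/
def LV (p q i : Nat) (l : List Tm) (a b c : Nat) : ℤ :=
  kv p q i (LX fR l a b c) (LX fT l a b c) (LX fP l a b c)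

theorem LX_swap12 {F : Nat → Nat → Nat → Nat → Nat → Nat → Nat → Nat}
    (hF : ∀ D x y z w u v, F D x y z w u v = F D z w x y u v) (l : List Tm)
    (a b c : Nat) : LX F l a b c = LX F l b a c := by
  unfold LX
  congr 1
  exact List.map_congr_left fun k _ => by rw [hF]

theorem LX_swap23 {F : Nat → Nat → Nat → Nat → Nat → Nat → Nat → Nat}
    (hF : ∀ D x y z w u v, F D x y z w u v = F D x y u v z w) (l : List Tm)
    (a b c : Nat) : LX F l a b c = LX F l a c b := by
  unfold LX
  congr 1
  exact List.map_congr_left fun k _ => by rw [hF]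

theorem LV_swap12 (p q i : Nat) (l : List Tm) (a b c : Nat) :
    LV p q i l a b c = LV p q i l b a c := by
  unfold LV
  rw [LX_swap12 (F := fR) (fun D x y z w u v => by unfold fR; ring),
    LX_swap12 (F := fT) (fun D x y z w u v => by unfold fT; ring),
    LX_swap12 (F := fP) (fun D x y z w u v => by unfold fP; ring)]

theorem LV_swap23 (p q i : Nat) (l : List Tm) (a b c : Nat) :
    LV p q i l a b c = LV p q i l a c b := by
  unfold LV
  rw [LX_swap23 (F := fR) (fun D x y z w u v => by unfold fR; ring),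
    LX_swap23 (F := fT) (fun D x y z w u v => by unfold fT; ring),
    LX_swap23 (F := fP) (fun D x y z w u v => by unfold fP; ring)]

/-- Entry of a packed permutation. -/
def sgm (σ a : Nat) : Nat := ent σ 8 255 a

/-- Pull back of a vector of digits. -/
noncomputable def pull (S σ : Nat) (n : Nat) : Nat :=
  Nat.rec (motive := fun _ => Nat) 0
    (fun a ih => Nat.add ih (Nat.mul (dg S (sgm σ a)) (Nat.pow 2 (Nat.mul 16 a)))) n

theorem pull_eq (S σ : Nat) : ∀ n, pull S σ n = ∑ a ∈ range n, dg S (sgm σ a) * 2 ^ (16 * a)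
  | 0 => rfl
  | n + 1 => by
    rw [Finset.sum_range_succ, ← pull_eq S σ n]; rfl

theorem pull_dg (S σ n a : Nat) (ha : a < n) : dg (pull S σ n) a = dg S (sgm σ a) := by
  refine Nat.eq_of_testBit_eq fun u => ?_
  rw [dg_bit]
  by_cases hu : u < 16
  · rw [pull_eq, (digs 16 (fun a => dg S (sgm σ a)) n (fun i _ => dg_lt _ _)).2 a ha u hu]
    simp [hu]
  · rw [dg_bit]
    simp [hu]

/-- Pull back of a term. -/
noncomputable def pullT (n σ : Nat) (k : Tm) : Tm :=
  (pull k.1 σ n, pull k.2.1 σ n, k.2.2.1, k.2.2.2)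

theorem LX_pull (F : Nat → Nat → Nat → Nat → Nat → Nat → Nat → Nat) (l : List Tm)
    (n σ a b c : Nat) (ha : a < n) (hb : b < n) (hc : c < n) :
    LX F (l.map (pullT n σ)) a b c = LX F l (sgm σ a) (sgm σ b) (sgm σ c) := by
  unfold LX
  rw [List.map_map]
  congr 1
  refine List.map_congr_left fun k _ => ?_
  simp only [Function.comp, pullT]
  rw [pull_dg _ _ _ _ ha, pull_dg _ _ _ _ hb, pull_dg _ _ _ _ hc, pull_dg _ _ _ _ ha,
    pull_dg _ _ _ _ hb, pull_dg _ _ _ _ hc]

theorem LX_perm (F : Nat → Nat → Nat → Nat → Nat → Nat → Nat → Nat)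
    {l l' : List Tm} (h : l.Perm l') (a b c : Nat) :
    LX F l a b c = LX F l' a b c := (h.map _).sum_eq

theorem LV_pull (p q i : Nat) {l : List Tm} {n σ : Nat}
    (h : ((l.map (pullT n σ)).isPerm l) = true) {a b c : Nat} (ha : a < n) (hb : b < n)
    (hc : c < n) : LV p q i l (sgm σ a) (sgm σ b) (sgm σ c) = LV p q i l a b c := by
  have hp := List.isPerm_iff.1 h
  unfold LV
  rw [← LX_pull fR l n σ a b c ha hb hc, ← LX_pull fT l n σ a b c ha hb hc,
    ← LX_pull fP l n σ a b c ha hb hc, LX_perm fR hp, LX_perm fT hp, LX_perm fP hp]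

end KC.U

namespace KC

open U

/-- Tables of the weighted cubic families. -/
structure UTab where
  /-- canonical words and types of the 16 root masks, 24 bits each -/
  CW : Nat
  /-- classes of the patterns, 8 bits each, index `64 t + p` -/
  CL : Nat
  /-- numbers of classes, 8 bits each -/
  NC : Nat
  /-- table of the values -/
  TT : Nat → BT
  /-- packed permutations of the classes -/
  SL : Nat → List Nat
  /-- terms -/
  TM : Nat → List Tm
  /-- number of types -/
  NT : Nat
  /-- width of the entries -/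
  W : Nat
  /-- offset -/
  OFF : Nat
  /-- denominator of the constant -/
  PA : Nat
  /-- numerator of the constant -/
  PB : Nat

namespace UTab

variable (T : UTab)

/-- Code of word and type. -/
def cwv (r : Nat) : Nat := ent T.CW 24 16777215 r
/-- Type. -/
def ty (r : Nat) : Nat := Nat.land (T.cwv r) 15
/-- Word. -/
def wr (r : Nat) : List Nat := decw 6 (Nat.shiftRight (T.cwv r) 4)
/-- Class of a pattern. -/
def cl (t p : Nat) : Nat := ent T.CL 8 255 (Nat.add (Nat.mul t 64) p)
/-- Number of classes. -/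
def nc (t : Nat) : Nat := ent T.NC 8 255 t

/-- Class of a pattern for labelled roots. -/
def cx (r p : Nat) : Nat := T.cl (T.ty r) (ap (T.wr r) p)

/-- The integrand of kind `i`. -/
def GX (i m : Nat) : ℤ :=
  LV T.PA T.PB i (T.TM (T.ty (r4 m))) (T.cx (r4 m) (pa m)) (T.cx (r4 m) (pb m)) (T.cx (r4 m) (pc m))

/-- The integrand. -/
def GV (m : Nat) : ℤ := T.GX (m.testBit 34).toNat m

/-- The slope. -/
def GA (m : Nat) : ℤ := T.GX 2 m

/-- Words, types. -/
def ck1 : Bool := (List.range 16).all fun r => w3 (T.wr r) && Nat.blt (T.ty r) T.NT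

/-- Compatibility of the canonical labelling with the swaps. -/
def ck2 : Bool := (List.range 16).all fun r => (List.range 3).all fun j =>
  Nat.beq (T.ty (r4 (tau j r))) (T.ty r) && (Nat.beq (T.ty r) 0 ||
    (T.SL (T.ty r)).any fun σ => (List.range 64).all fun p =>
      Nat.beq (T.cx (r4 (tau j r)) (tp j p)) (sgm σ (T.cx r p)))

/-- Classes in range. -/
def ck3 : Bool := (List.range T.NT).all fun t => (List.range 64).all fun p =>
  Nat.blt (T.cl t p) (T.nc t)

/-- Invariance of the terms. -/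
noncomputable def ck4 (t : Nat) : Bool := (T.SL t).all fun σ =>
  ((T.TM t).map (pullT (T.nc t) σ)).isPerm (T.TM t)

/-- The checks. -/
structure Good : Prop where
  c0 : T.TM 0 = []
  c1 : T.ck1 = true
  c2 : T.ck2 = true
  c3 : T.ck3 = true
  c4 : ∀ t < T.NT, T.ck4 t = true

variable {T}

theorem Good.w3r (h : T.Good) {r : Nat} (hr : r < 2 ^ 4) : w3 (T.wr r) = true := by
  have := h.c1
  simp only [ck1, List.all_eq_true, List.mem_range, Bool.and_eq_true] at this
  exact (this r hr).1

theorem Good.tyr (h : T.Good) {r : Nat} (hr : r < 2 ^ 4) : T.ty r < T.NT := by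
  have := h.c1
  simp only [ck1, List.all_eq_true, List.mem_range, Bool.and_eq_true] at this
  exact (Nat.blt_eq ▸ (this r hr).2)

theorem Good.cl_lt (h : T.Good) {t p : Nat} (ht : t < T.NT) (hp : p < 2 ^ 6) :
    T.cl t p < T.nc t := by
  have := h.c3
  simp only [ck3, List.all_eq_true, List.mem_range] at this
  exact (Nat.blt_eq ▸ (this t ht p hp))

theorem Good.cx_lt (h : T.Good) {r p : Nat} (hr : r < 2 ^ 4) (hp : p < 2 ^ 6) :
    T.cx r p < T.nc (T.ty r) := h.cl_lt (h.tyr hr) (ap_lt _ hp)

theorem GX_tau (h : T.Good) (i m : Nat) {j : Nat} (hj : j < 3) :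
    T.GX i (tau j m) = T.GX i m := by
  have h2 := h.c2
  simp only [ck2, List.all_eq_true, List.mem_range, Bool.and_eq_true] at h2
  obtain ⟨h3, h4⟩ := h2 (r4 m) (r4_lt m) j hj
  rw [← r4_tau j m hj] at h3 h4
  have h3 := Nat.eq_of_beq_eq_true h3
  unfold GX
  by_cases h0 : T.ty (r4 m) = 0
  · rw [h3, h0, h.c0]
    rfl
  · rw [Bool.or_eq_true] at h4
    rcases h4 with h4 | h4
    · exact absurd (Nat.eq_of_beq_eq_true h4) h0
    · rw [List.any_eq_true] at h4
      obtain ⟨σ, hσ, h5⟩ := h4
      simp only [List.all_eq_true, List.mem_range] at h5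
      have e (p : Nat) (hp : p < 2 ^ 6) : T.cx (r4 (tau j m)) (tp j p) =
          sgm σ (T.cx (r4 m) p) := Nat.eq_of_beq_eq_true (h5 p hp)
      rw [pa_tau j m hj, pb_tau j m hj, pc_tau j m hj, e _ (pa_lt m), e _ (pb_lt m),
        e _ (pc_lt m), h3]
      have h6 := h.c4 (T.ty (r4 m)) (h.tyr (r4_lt m))
      simp only [ck4, List.all_eq_true] at h6
      exact LV_pull _ _ i (h6 σ hσ) (h.cx_lt (r4_lt m) (pa_lt m)) (h.cx_lt (r4_lt m) (pb_lt m))
        (h.cx_lt (r4_lt m) (pc_lt m))

theorem GX_tau4 (T : UTab) (i m : Nat) : T.GX i (tau 4 m) = T.GX i m := by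
  unfold GX
  rw [r4_tau4, pa_tau4, pb_tau4, pc_tau4, LV_swap12]

theorem GX_tau5 (T : UTab) (i m : Nat) : T.GX i (tau 5 m) = T.GX i m := by
  unfold GX
  rw [r4_tau5, pa_tau5, pb_tau5, pc_tau5, LV_swap23]

/-- Invariance of the integrand under the stabiliser of the decomposition. -/
theorem GV_inv (h : T.Good) :
    ∀ W ∈ ([[0], [1], [2], [4], [5]] : List (List Nat)), ∀ m, Adm m →
      T.GV (awl W m) = T.GV m := by
  intro W hW m _
  simp only [List.mem_cons, List.not_mem_nil, or_false] at hW
  rcases hW with rfl | rfl | rfl | rfl | rfl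
  · change T.GV (tau 0 m) = _
    rw [GV, b34_tau 0 m (by norm_num), GX_tau h _ _ (by norm_num)]; rfl
  · change T.GV (tau 1 m) = _
    rw [GV, b34_tau 1 m (by norm_num), GX_tau h _ _ (by norm_num)]; rfl
  · change T.GV (tau 2 m) = _
    rw [GV, b34_tau 2 m (by norm_num), GX_tau h _ _ (by norm_num)]; rfl
  · change T.GV (tau 4 m) = _
    rw [GV, b34_tau4 m, GX_tau4]; rfl
  · change T.GV (tau 5 m) = _
    rw [GV, b34_tau5 m, GX_tau5]; rfl

/-- Invariance of the slope. -/
theorem GA_inv (h : T.Good) :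
    ∀ W ∈ ([[0], [1], [2], [4], [5]] : List (List Nat)), ∀ m, Adm m →
      T.GA (awl W m) = T.GA m := by
  intro W hW m _
  simp only [List.mem_cons, List.not_mem_nil, or_false] at hW
  rcases hW with rfl | rfl | rfl | rfl | rfl
  · exact GX_tau (j := 0) h 2 m (by norm_num)
  · exact GX_tau (j := 1) h 2 m (by norm_num)
  · exact GX_tau (j := 2) h 2 m (by norm_num)
  · exact GX_tau4 T 2 m
  · exact GX_tau5 T 2 m

end UTab

end KC
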