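import Pool.Agent.Helper34.KU.U2

set_option autoImplicit false

/-!
Packed tables of values for the weighted cubic families.
-/

namespace KC.U

open Finset

/-- Triple packed sum. -/
def TS (W n : Nat) (F : Nat → Nat → Nat → Nat) : Nat :=
  ∑ a ∈ range n, ∑ b ∈ range n, ∑ c ∈ range n,
    F a b c * (2 ^ (W * n * n * a) * (2 ^ (W * n * b) * 2 ^ (W * c)))

theorem TS_nest (W n : Nat) (F : Nat → Nat → Nat → Nat) :
    TS W n F = ∑ a ∈ range n, (∑ b ∈ range n, (∑ c ∈ range n, F a b c * 2 ^ (W * c)) *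
      2 ^ (W * n * b)) * 2 ^ (W * n * n * a) := by
  unfold TS
  refine Finset.sum_congr rfl fun a _ => ?_
  rw [Finset.sum_mul]
  refine Finset.sum_congr rfl fun b _ => ?_
  rw [Finset.sum_mul, Finset.sum_mul]
  refine Finset.sum_congr rfl fun c _ => ?_
  ring

theorem TS_digs (W n : Nat) (F : Nat → Nat → Nat → Nat)
    (hF : ∀ a < n, ∀ b < n, ∀ c < n, F a b c < 2 ^ W) :
    TS W n F < 2 ^ (W * n * n * n) ∧ ∀ a < n, ∀ b < n, ∀ c < n, ∀ s < W,
      (TS W n F).testBit (W * n * n * a + (W * n * b + (W * c + s))) = (F a b c).testBit s := by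
  rw [TS_nest]
  have h1 := fun a (ha : a < n) b (hb : b < n) => digs W (F a b) n (hF a ha b hb)
  have h2 := fun a (ha : a < n) => digs (W * n)
    (fun b => ∑ c ∈ range n, F a b c * 2 ^ (W * c)) n (fun b hb => (h1 a ha b hb).1)
  have h3 := digs (W * n * n)
    (fun a => ∑ b ∈ range n, (∑ c ∈ range n, F a b c * 2 ^ (W * c)) * 2 ^ (W * n * b)) n
    (fun a ha => (h2 a ha).1)
  refine ⟨h3.1, fun a ha b hb c hc s hs => ?_⟩
  have e1 : W * c + s < W * n := by
    calc W * c + s < W * c + W := by omega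
      _ = W * (c + 1) := by ring
      _ ≤ W * n := Nat.mul_le_mul_left _ hc
  have e2 : W * n * b + (W * c + s) < W * n * n := by
    calc W * n * b + (W * c + s) < W * n * b + W * n := by omega
      _ = W * n * (b + 1) := by ring
      _ ≤ W * n * n := Nat.mul_le_mul_left _ hb
  rw [h3.2 a ha _ e2, (h2 a ha).2 b hb _ e1]
  exact (h1 a ha b hb).2 c hc s hs

theorem TS_add (W n : Nat) (F G : Nat → Nat → Nat → Nat) :
    TS W n F + TS W n G = TS W n (fun a b c => F a b c + G a b c) := by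
  unfold TS
  simp only [add_mul, Finset.sum_add_distrib]

theorem TS_mul (W n k : Nat) (F : Nat → Nat → Nat → Nat) :
    k * TS W n F = TS W n (fun a b c => k * F a b c) := by
  unfold TS
  simp only [Finset.mul_sum, mul_assoc]

theorem TS_zero (W n : Nat) : TS W n (fun _ _ _ => 0) = 0 := by
  unfold TS
  simp

theorem TS_congr {W n : Nat} {F G : Nat → Nat → Nat → Nat}
    (h : ∀ a < n, ∀ b < n, ∀ c < n, F a b c = G a b c) : TS W n F = TS W n G := by
  unfold TS
  refine Finset.sum_congr rfl fun a ha => Finset.sum_congr rfl fun b hb =>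
    Finset.sum_congr rfl fun c hc => ?_
  rw [h a (Finset.mem_range.1 ha) b (Finset.mem_range.1 hb) c (Finset.mem_range.1 hc)]

theorem TS_prod (W n : Nat) (f g h : Nat → Nat) :
    (∑ a ∈ range n, f a * 2 ^ (W * n * n * a)) *
      ((∑ b ∈ range n, g b * 2 ^ (W * n * b)) * (∑ c ∈ range n, h c * 2 ^ (W * c))) =
      TS W n (fun a b c => f a * g b * h c) := by
  unfold TS
  rw [Finset.sum_mul]
  refine Finset.sum_congr rfl fun a _ => ?_
  rw [Finset.sum_mul, Finset.mul_sum]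
  refine Finset.sum_congr rfl fun b _ => ?_
  rw [Finset.mul_sum, Finset.mul_sum]
  refine Finset.sum_congr rfl fun c _ => ?_
  ring

theorem TS_list {α : Type} (W n : Nat) (F : α → Nat → Nat → Nat → Nat) :
    ∀ l : List α, (l.map fun k => TS W n (F k)).sum =
      TS W n (fun a b c => (l.map fun k => F k a b c).sum)
  | [] => by simp [TS_zero]
  | k :: l => by
    simp only [List.map_cons, List.sum_cons]
    rw [TS_list W n F l, TS_add]

/-- Packed vector of the digits. -/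
noncomputable def pks (B s n : Nat) : Nat :=
  Nat.rec (motive := fun _ => Nat) 0
    (fun a ih => Nat.add ih (Nat.mul (dg s a) (Nat.pow 2 (Nat.mul B a)))) n

theorem pks_eq (B s : Nat) : ∀ n, pks B s n = ∑ a ∈ range n, dg s a * 2 ^ (B * a)
  | 0 => rfl
  | n + 1 => by
    rw [Finset.sum_range_succ, ← pks_eq B s n]; rfl

/-- Packed vector of ones. -/
noncomputable def pk1 (B n : Nat) : Nat :=
  Nat.rec (motive := fun _ => Nat) 0
    (fun a ih => Nat.add ih (Nat.pow 2 (Nat.mul B a))) n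

theorem pk1_eq (B : Nat) : ∀ n, pk1 B n = ∑ a ∈ range n, 1 * 2 ^ (B * a)
  | 0 => rfl
  | n + 1 => by
    rw [Finset.sum_range_succ, ← pk1_eq B n, one_mul]; rfl

/-- Sum over a list, for the kernel. -/
noncomputable def sumL (f : Tm → Nat) (l : List Tm) : Nat :=
  List.rec (motive := fun _ => Nat) 0 (fun k _ ih => Nat.add (f k) ih) l

theorem sumL_eq (f : Tm → Nat) : ∀ l, sumL f l = (l.map f).sum
  | [] => rfl
  | k :: l => by
    rw [List.map_cons, List.sum_cons, ← sumL_eq f l]; rfl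

/-- Packed value of a term: all three in `C`. -/
noncomputable def kR (W n : Nat) (k : Tm) : Nat :=
  Nat.mul k.2.2.1 (Nat.mul (pks (W * n * n) k.1 n) (Nat.mul (pks (W * n) k.1 n) (pks W k.1 n)))

/-- Packed value of a term: one in `G`, two in `C`. -/
noncomputable def kT (W n : Nat) (k : Tm) : Nat :=
  Nat.mul k.2.2.1 (Nat.add
    (Nat.mul (pks (W * n * n) k.2.1 n) (Nat.mul (pks (W * n) k.1 n) (pks W k.1 n)))
    (Nat.mul (pks (W * n * n) k.1 n) (Nat.add (Nat.mul (pks (W * n) k.2.1 n) (pks W k.1 n))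
      (Nat.mul (pks (W * n) k.1 n) (pks W k.2.1 n)))))

/-- Packed value of a term: one in `G`, another one in `C`. -/
noncomputable def kP (W n : Nat) (k : Tm) : Nat :=
  Nat.mul (Nat.mul k.2.2.1 k.2.2.2) (Nat.add
    (Nat.mul (pks (W * n * n) k.2.1 n) (Nat.add (Nat.mul (pks (W * n) k.1 n) (pk1 W n))
      (Nat.mul (pk1 (W * n) n) (pks W k.1 n))))
    (Nat.add
      (Nat.mul (pks (W * n * n) k.1 n) (Nat.add (Nat.mul (pks (W * n) k.2.1 n) (pk1 W n))
        (Nat.mul (pk1 (W * n) n) (pks W k.2.1 n))))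
      (Nat.mul (pk1 (W * n * n) n) (Nat.add (Nat.mul (pks (W * n) k.2.1 n) (pks W k.1 n))
        (Nat.mul (pks (W * n) k.1 n) (pks W k.2.1 n))))))

/-- Value of a term. -/
def vx (F : Nat → Nat → Nat → Nat → Nat → Nat → Nat → Nat) (k : Tm) (a b c : Nat) : Nat :=
  k.2.2.1 * F k.2.2.2 (dg k.2.1 a) (dg k.1 a) (dg k.2.1 b) (dg k.1 b) (dg k.2.1 c) (dg k.1 c)

theorem kR_eq (W n : Nat) (k : Tm) : kR W n k = TS W n (vx fR k) := by
  unfold kR
  simp only [Nat.mul_eq]
  rw [pks_eq, pks_eq, pks_eq, TS_prod, TS_mul]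
  rfl

theorem kT_eq (W n : Nat) (k : Tm) : kT W n k = TS W n (vx fT k) := by
  unfold kT
  simp only [Nat.mul_eq, Nat.add_eq, mul_add]
  simp only [pks_eq, TS_prod, TS_mul, TS_add]
  refine TS_congr fun a _ b _ c _ => ?_
  unfold vx fT; ring

theorem kP_eq (W n : Nat) (k : Tm) : kP W n k = TS W n (vx fP k) := by
  unfold kP
  simp only [Nat.mul_eq, Nat.add_eq, mul_add]
  simp only [pks_eq, pk1_eq, TS_prod, TS_mul, TS_add]
  refine TS_congr fun a _ b _ c _ => ?_
  unfold vx fP; ring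

theorem sumR_eq (W n : Nat) (l : List Tm) :
    sumL (kR W n) l = TS W n (LX fR l) := by
  rw [sumL_eq]
  refine Eq.trans ?_ (TS_list W n (fun (k : Tm) => vx fR k) l)
  congr 1
  exact List.map_congr_left fun k _ => kR_eq W n k

theorem sumT_eq (W n : Nat) (l : List Tm) :
    sumL (kT W n) l = TS W n (LX fT l) := by
  rw [sumL_eq]
  refine Eq.trans ?_ (TS_list W n (fun (k : Tm) => vx fT k) l)
  congr 1
  exact List.map_congr_left fun k _ => kT_eq W n k

theorem sumP_eq (W n : Nat) (l : List Tm) :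
    sumL (kP W n) l = TS W n (LX fP l) := by
  rw [sumL_eq]
  refine Eq.trans ?_ (TS_list W n (fun (k : Tm) => vx fP k) l)
  congr 1
  exact List.map_congr_left fun k _ => kP_eq W n k

/-- Weight of a term. -/
def wt (k : Tm) : Nat := k.2.2.1 * (k.2.2.2 * k.2.2.2 * k.2.2.2)

/-- The digits at the class `a` are in order. -/
def okA (l : List Tm) (a : Nat) : Prop := ∀ k ∈ l, dg k.2.1 a ≤ dg k.1 a ∧ dg k.1 a ≤ k.2.2.2

theorem LX_le (F : Nat → Nat → Nat → Nat → Nat → Nat → Nat → Nat) (B : Nat)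
    (hF : ∀ D x y z w u v, x ≤ D → y ≤ D → z ≤ D → w ≤ D → u ≤ D → v ≤ D →
      F D x y z w u v ≤ B * (D * D * D))
    (a b c : Nat) : ∀ l : List Tm, okA l a → okA l b → okA l c →
    LX F l a b c ≤ B * (l.map wt).sum
  | [], _, _, _ => by simp [LX]
  | k :: l, oa, ob, oc => by
    have ih := LX_le F B hF a b c l (fun k hk => oa k (List.mem_cons_of_mem _ hk))
      (fun k hk => ob k (List.mem_cons_of_mem _ hk)) (fun k hk => oc k (List.mem_cons_of_mem _ hk))
    obtain ⟨a1, a2⟩ := oa k List.mem_cons_self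
    obtain ⟨b1, b2⟩ := ob k List.mem_cons_self
    obtain ⟨c1, c2⟩ := oc k List.mem_cons_self
    unfold LX at *
    simp only [List.map_cons, List.sum_cons, mul_add]
    have h1 := hF k.2.2.2 _ _ _ _ _ _ (a1.trans a2) a2 (b1.trans b2) b2 (c1.trans c2) c2
    have h2 := Nat.mul_le_mul_left k.2.2.1 h1
    have h3 : k.2.2.1 * (B * (k.2.2.2 * k.2.2.2 * k.2.2.2)) = B * wt k := by unfold wt; ring
    rw [h3] at h2
    exact Nat.add_le_add h2 ih

theorem LXR_le (l : List Tm) (a b c : Nat) (oa : okA l a) (ob : okA l b) (oc : okA l c) :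
    LX fR l a b c ≤ 1 * (l.map wt).sum :=
  LX_le fR 1 (fun D x y z w u v _ h2 _ h4 _ h6 => by
    unfold fR
    rw [one_mul]
    exact Nat.mul_le_mul (Nat.mul_le_mul h2 h4) h6) a b c l oa ob oc

theorem LXT_le (l : List Tm) (a b c : Nat) (oa : okA l a) (ob : okA l b) (oc : okA l c) :
    LX fT l a b c ≤ 3 * (l.map wt).sum :=
  LX_le fT 3 (fun D x y z w u v h1 h2 h3 h4 h5 h6 => by
    unfold fT
    have e1 : x * w * v ≤ D * D * D := Nat.mul_le_mul (Nat.mul_le_mul h1 h4) h6
    have e2 : y * z * v ≤ D * D * D := Nat.mul_le_mul (Nat.mul_le_mul h2 h3) h6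
    have e3 : y * w * u ≤ D * D * D := Nat.mul_le_mul (Nat.mul_le_mul h2 h4) h5
    omega) a b c l oa ob oc

theorem LXP_le (l : List Tm) (a b c : Nat) (oa : okA l a) (ob : okA l b) (oc : okA l c) :
    LX fP l a b c ≤ 6 * (l.map wt).sum :=
  LX_le fP 6 (fun D x y z w u v h1 h2 h3 h4 h5 h6 => by
    unfold fP
    have e1 : x * (w + v) ≤ D * (2 * D) := Nat.mul_le_mul h1 (by omega)
    have e2 : z * (y + v) ≤ D * (2 * D) := Nat.mul_le_mul h3 (by omega)
    have e3 : u * (y + w) ≤ D * (2 * D) := Nat.mul_le_mul h5 (by omega)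
    calc D * (x * (w + v) + z * (y + v) + u * (y + w)) ≤
          D * (D * (2 * D) + D * (2 * D) + D * (2 * D)) :=
          Nat.mul_le_mul_left _ (Nat.add_le_add (Nat.add_le_add e1 e2) e3)
      _ = 6 * (D * D * D) := by ring) a b c l oa ob oc

/-- The value with offset. -/
def vo (p q OFF i : Nat) (l : List Tm) (a b c : Nat) : Nat :=
  (LV p q i l a b c + OFF).toNat

/-- Packed values of the three kinds. -/
noncomputable def num (p q W OFF n : Nat) (l : List Tm) : Nat :=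
  fc (sumL (kR W n) l) fun R => fc (sumL (kT W n) l) fun T => fc (sumL (kP W n) l) fun P =>
  fc (Nat.mul OFF (Nat.mul (pk1 (W * n * n) n) (Nat.mul (pk1 (W * n) n) (pk1 W n)))) fun J =>
  Nat.add (Nat.sub (Nat.add J (Nat.mul q R)) (Nat.mul q T))
    (Nat.add (Nat.mul (Nat.sub (Nat.add J (Nat.mul p P))
          (Nat.add (Nat.mul (Nat.add p q) T) (Nat.mul (Nat.sub p q) R)))
        (Nat.pow 2 (W * n * n * n * 1)))
      (Nat.mul (Nat.sub (Nat.add J R) T) (Nat.pow 2 (W * n * n * n * 2))))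

theorem TS_sub {W n : Nat} {F G H : Nat → Nat → Nat → Nat}
    (h : ∀ a < n, ∀ b < n, ∀ c < n, G a b c + H a b c = F a b c) :
    TS W n F - TS W n H = TS W n G := by
  have : TS W n F = TS W n G + TS W n H := by
    rw [TS_add]
    exact TS_congr fun a ha b hb c hc => (h a ha b hb c hc).symm
  rw [this, Nat.add_sub_cancel]

theorem LV_bd (p q i : Nat) (l : List Tm) (hp : 0 < p) (hpq : q ≤ p)
    (a b c : Nat) (oa : okA l a) (ob : okA l b) (oc : okA l c) :
    -(8 * ((p : ℤ) + q) * ((l.map wt).sum : Nat)) ≤ LV p q i l a b c ∧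
    LV p q i l a b c ≤ 8 * ((p : ℤ) + q) * ((l.map wt).sum : Nat) := by
  have hR0 : LX fR l a b c ≤ 1 * _ := LXR_le l a b c oa ob oc
  have hT0 : LX fT l a b c ≤ 3 * _ := LXT_le l a b c oa ob oc
  have hP0 : LX fP l a b c ≤ 6 * _ := LXP_le l a b c oa ob oc
  unfold LV kv
  generalize (l.map wt).sum = M at *
  generalize LX fR l a b c = R at *
  generalize LX fT l a b c = T at *
  generalize LX fP l a b c = P at *
  have hR : (R : ℤ) ≤ M := by exact_mod_cast (by omega : R ≤ M)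
  have hT : (T : ℤ) ≤ 3 * M := by exact_mod_cast hT0
  have hP : (P : ℤ) ≤ 6 * M := by exact_mod_cast hP0
  have nR : (0 : ℤ) ≤ R := by positivity
  have nT : (0 : ℤ) ≤ T := by positivity
  have nP : (0 : ℤ) ≤ P := by positivity
  have nM : (0 : ℤ) ≤ M := by positivity
  have hp1 : (1 : ℤ) ≤ p := by exact_mod_cast hp
  have hq0 : (0 : ℤ) ≤ q := by positivity
  have hpq1 : (q : ℤ) ≤ p := by exact_mod_cast hpq
  have a1 : (q : ℤ) * R ≤ q * M := mul_le_mul_of_nonneg_left hR hq0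
  have a2 : (q : ℤ) * T ≤ q * (3 * M) := mul_le_mul_of_nonneg_left hT hq0
  have a3 : (p : ℤ) * P ≤ p * (6 * M) := mul_le_mul_of_nonneg_left hP (by linarith)
  have a4 : (p : ℤ) * T ≤ p * (3 * M) := mul_le_mul_of_nonneg_left hT (by linarith)
  have a5 : ((p : ℤ) - q) * R ≤ (p - q) * M := mul_le_mul_of_nonneg_left hR (by linarith)
  have b1 : (0 : ℤ) ≤ q * R := mul_nonneg hq0 nR
  have b2 : (0 : ℤ) ≤ q * T := mul_nonneg hq0 nT
  have b3 : (0 : ℤ) ≤ p * P := mul_nonneg (by linarith) nP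
  have b4 : (0 : ℤ) ≤ p * T := mul_nonneg (by linarith) nT
  have b5 : (0 : ℤ) ≤ (p - q) * R := mul_nonneg (by linarith) nR
  have b6 : (0 : ℤ) ≤ q * M := mul_nonneg hq0 nM
  have b7 : (M : ℤ) ≤ p * M := by nlinarith
  split_ifs
  · constructor <;> nlinarith
  · constructor <;> nlinarith
  · constructor <;> nlinarith

theorem vo_lt (p q W OFF i : Nat) (l : List Tm) (hp : 0 < p) (hpq : q ≤ p)
    (h1 : 8 * (p + q) * (l.map wt).sum ≤ OFF)
    (h2 : OFF + 8 * (p + q) * (l.map wt).sum < 2 ^ W) (a b c : Nat)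
    (oa : okA l a) (ob : okA l b) (oc : okA l c) :
    vo p q OFF i l a b c < 2 ^ W ∧ ((vo p q OFF i l a b c : Nat) : ℤ) = LV p q i l a b c + OFF := by
  obtain ⟨h3, h4⟩ := LV_bd p q i l hp hpq a b c oa ob oc
  have h1' : 8 * ((p : ℤ) + q) * ((l.map wt).sum : Nat) ≤ OFF := by exact_mod_cast h1
  have h2' : (OFF : ℤ) + 8 * ((p : ℤ) + q) * ((l.map wt).sum : Nat) < 2 ^ W := by
    exact_mod_cast h2
  have h5 : ((vo p q OFF i l a b c : Nat) : ℤ) = LV p q i l a b c + OFF :=
    Int.toNat_of_nonneg (by linarith)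
  refine ⟨?_, h5⟩
  zify
  rw [h5]
  linarith

theorem num_eq (p q W OFF n : Nat) (l : List Tm) (hp : 0 < p) (hpq : q ≤ p)
    (h1 : 8 * (p + q) * (l.map wt).sum ≤ OFF)
    (h2 : OFF + 8 * (p + q) * (l.map wt).sum < 2 ^ W) (ok : ∀ a < n, okA l a) :
    num p q W OFF n l = ∑ i ∈ range 3, TS W n (vo p q OFF i l) * 2 ^ (W * n * n * n * i) := by
  unfold num
  rw [fc_eq, fc_eq, fc_eq, fc_eq, sumR_eq, sumT_eq, sumP_eq]
  simp only [Nat.mul_eq, Nat.add_eq, Nat.sub_eq, Nat.pow_eq]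
  rw [pk1_eq, pk1_eq, pk1_eq, TS_prod, TS_mul, TS_mul, TS_mul, TS_mul, TS_mul, TS_mul,
    TS_add, TS_add, TS_add, TS_add]
  rw [Finset.sum_range_succ, Finset.sum_range_succ, Finset.sum_range_succ, Finset.sum_range_zero]
  have hv := fun i a (ha : a < n) b (hb : b < n) c (hc : c < n) =>
    (vo_lt p q W OFF i l hp hpq h1 h2 a b c (ok a ha) (ok b hb) (ok c hc)).2
  have e0 : ∀ a < n, ∀ b < n, ∀ c < n, vo p q OFF 0 l a b c + q * LX fT l a b c =
      OFF * (1 * 1 * 1) + q * LX fR l a b c := by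
    intro a ha b hb c hc
    zify
    rw [hv 0 a ha b hb c hc, LV, kv, if_pos rfl]
    ring
  have e1 : ∀ a < n, ∀ b < n, ∀ c < n, vo p q OFF 1 l a b c + ((p + q) * LX fT l a b c +
      (p - q) * LX fR l a b c) = OFF * (1 * 1 * 1) + p * LX fP l a b c := by
    intro a ha b hb c hc
    zify [hpq]
    rw [hv 1 a ha b hb c hc, LV, kv, if_neg (by norm_num), if_pos rfl]
    ring
  have e2 : ∀ a < n, ∀ b < n, ∀ c < n, vo p q OFF 2 l a b c + LX fT l a b c =
      OFF * (1 * 1 * 1) + LX fR l a b c := by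
    intro a ha b hb c hc
    zify
    rw [hv 2 a ha b hb c hc, LV, kv, if_neg (by norm_num), if_neg (by norm_num)]
    ring
  rw [TS_sub e0, TS_sub e1, TS_sub e2]
  ring

theorem num_bit (p q W OFF n : Nat) (l : List Tm) (hp : 0 < p) (hpq : q ≤ p)
    (h1 : 8 * (p + q) * (l.map wt).sum ≤ OFF)
    (h2 : OFF + 8 * (p + q) * (l.map wt).sum < 2 ^ W) (ok : ∀ a < n, okA l a)
    {i a b c s : Nat} (hi : i < 3)
    (ha : a < n) (hb : b < n) (hc : c < n) (hs : s < W) :
    (num p q W OFF n l).testBit (W * (((i * n + a) * n + b) * n + c) + s) =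
      (vo p q OFF i l a b c).testBit s := by
  rw [num_eq p q W OFF n l hp hpq h1 h2 ok]
  have h3 := fun i => TS_digs W n (vo p q OFF i l)
    (fun a ha b hb c hc =>
      (vo_lt p q W OFF i l hp hpq h1 h2 a b c (ok a ha) (ok b hb) (ok c hc)).1)
  have h4 := digs (W * n * n * n) (fun i => TS W n (vo p q OFF i l)) 3 (fun i _ => (h3 i).1)
  have e0 : W * c + s < W * n := by
    calc W * c + s < W * c + W := by omega
      _ = W * (c + 1) := by ring
      _ ≤ W * n := Nat.mul_le_mul_left _ hc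
  have e1 : W * n * b + (W * c + s) < W * n * n := by
    calc W * n * b + (W * c + s) < W * n * b + W * n := by omega
      _ = W * n * (b + 1) := by ring
      _ ≤ W * n * n := Nat.mul_le_mul_left _ hb
  have e2 : W * n * n * a + (W * n * b + (W * c + s)) < W * n * n * n := by
    calc W * n * n * a + (W * n * b + (W * c + s)) < W * n * n * a + W * n * n := by omega
      _ = W * n * n * (a + 1) := by ring
      _ ≤ W * n * n * n := Nat.mul_le_mul_left _ ha
  have e3 : W * (((i * n + a) * n + b) * n + c) + s =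
      W * n * n * n * i + (W * n * n * a + (W * n * b + (W * c + s))) := by ring
  rw [e3, h4.2 i hi _ e2]
  exact (h3 i).2 a ha b hb c hc s hs

end KC.U
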