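import Pool.Agent.Helper34.KU.U4
import Pool.Agent.Helper91.KF.F7

set_option autoImplicit false

/-!
The weighted cubic families as valid inequalities for optimal weighted 3-graphs.
-/

namespace KC.U

open KF Finset

theorem list_range {α : Type} {R : Type} [AddCommMonoid R] (f : α → R) (d : α) (hd : f d = 0) :
    ∀ (l : List α) (K : Nat), l.length ≤ K → (l.map f).sum = ∑ k ∈ range K, f (l.getD k d)
  | [], K, _ => by simp [hd]
  | a :: l, 0, h => by simp at h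
  | a :: l, K + 1, h => by
    rw [Finset.sum_range_succ', List.map_cons, List.sum_cons,
      list_range f d hd l K (by simpa using h), add_comm]
    simp

/-- Value of one term. -/
def tv (p q i : Nat) (a b c : Nat) (k : Tm) : ℤ :=
  kv p q i (vx fR k a b c) (vx fT k a b c) (vx fP k a b c)

theorem kv_add (p q i R T P R' T' P' : Nat) :
    kv p q i (R + R') (T + T') (P + P') = kv p q i R T P + kv p q i R' T' P' := by
  unfold kv
  split_ifs <;> push_cast <;> ring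

theorem kv_zero (p q i : Nat) : kv p q i 0 0 0 = 0 := by
  unfold kv
  split_ifs <;> simp

theorem LV_sum (p q i a b c : Nat) : ∀ l : List Tm,
    LV p q i l a b c = (l.map (tv p q i a b c)).sum
  | [] => by
    unfold LV LX
    simp [kv_zero]
  | k :: l => by
    rw [List.map_cons, List.sum_cons, ← LV_sum p q i a b c l]
    unfold LV LX tv
    simp only [List.map_cons, List.sum_cons]
    rw [kv_add]
    rfl

theorem dg_zero (a : Nat) : dg 0 a = 0 := by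
  refine Nat.eq_of_testBit_eq fun u => ?_
  rw [dg_bit]
  simp

theorem tv_zero (p q i a b c : Nat) : tv p q i a b c (0, 0, 0, 0) = 0 := by
  unfold tv vx
  simp [kv_zero]

theorem tvr (p q : Nat) (hp : (p : ℝ) ≠ 0) (μ D : Nat) (hD : (D : ℝ) ≠ 0)
    (ga ca gb cb gc cc : Nat) (e : Bool) :
    ((kv p q e.toNat (μ * fR D ga ca gb cb gc cc) (μ * fT D ga ca gb cb gc cc)
      (μ * fP D ga ca gb cb gc cc) : ℤ) : ℝ) =
    (p : ℝ) * ((μ : ℝ) * ((D : ℝ) * D * D) * (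
      (ga : ℝ) / D * (((cb : ℝ) / D + (cc : ℝ) / D - (cb : ℝ) / D * ((cc : ℝ) / D)) * b2r e -
        (q : ℝ) / p * ((cb : ℝ) / D * ((cc : ℝ) / D))) +
      (gb : ℝ) / D * (((ca : ℝ) / D + (cc : ℝ) / D - (ca : ℝ) / D * ((cc : ℝ) / D)) * b2r e -
        (q : ℝ) / p * ((ca : ℝ) / D * ((cc : ℝ) / D))) +
      (gc : ℝ) / D * (((ca : ℝ) / D + (cb : ℝ) / D - (ca : ℝ) / D * ((cb : ℝ) / D)) * b2r e -
        (q : ℝ) / p * ((ca : ℝ) / D * ((cb : ℝ) / D))) +
      (ca : ℝ) / D * ((cb : ℝ) / D) * ((cc : ℝ) / D) * ((q : ℝ) / p - b2r e))) := by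
  cases e
  · unfold kv fR fT fP b2r
    simp only [Bool.toNat_false, if_true, Bool.false_eq_true, if_false]
    push_cast
    field_simp
    ring
  · unfold kv fR fT fP b2r
    simp only [Bool.toNat_true, one_ne_zero, if_true, if_false]
    push_cast
    field_simp
    ring

theorem tvd (p q : Nat) (μ D : Nat) (hD : (D : ℝ) ≠ 0) (ga ca gb cb gc cc : Nat) :
    ((kv p q 2 (μ * fR D ga ca gb cb gc cc) (μ * fT D ga ca gb cb gc cc)
      (μ * fP D ga ca gb cb gc cc) : ℤ) : ℝ) =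
    (μ : ℝ) * ((D : ℝ) * D * D) * (
      (ca : ℝ) / D * ((cb : ℝ) / D) * ((cc : ℝ) / D) -
      (ga : ℝ) / D * ((cb : ℝ) / D * ((cc : ℝ) / D)) -
      (gb : ℝ) / D * ((ca : ℝ) / D * ((cc : ℝ) / D)) -
      (gc : ℝ) / D * ((ca : ℝ) / D * ((cb : ℝ) / D))) := by
  unfold kv fR fT
  rw [if_neg (by norm_num), if_neg (by norm_num)]
  push_cast
  field_simp
  ring

end KC.U

namespace KC

open U KF Finset

namespace UTab

variable (T : UTab)

/-- Number of terms, an upper bound. -/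
def KM : Nat := ∑ t ∈ range T.NT, (T.TM t).length

/-- The term number `k` for labelled roots. -/
def trm (k r : Nat) : Tm := (T.TM (T.ty r)).getD k (0, 0, 0, 0)

/-- The multiplier. -/
noncomputable def mu (k r : Nat) : ℝ := if r < 16 then ((U.wt (T.trm k r) : Nat) : ℝ) else 0
/-- The weights `C`. -/
noncomputable def Cf (k r p : Nat) : ℝ :=
  if r < 16 ∧ p < 64 then ((dg (T.trm k r).1 (T.cx r p) : Nat) : ℝ) / ((T.trm k r).2.2.2 : Nat)
  else 0
/-- The weights `G`. -/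
noncomputable def Gf (k r p : Nat) : ℝ :=
  if r < 16 ∧ p < 64 then ((dg (T.trm k r).2.1 (T.cx r p) : Nat) : ℝ) / ((T.trm k r).2.2.2 : Nat)
  else 0

variable {T}

theorem trm_cases (h : T.Good) (hG : T.ckG = true) {k r : Nat} (hr : r < 16) :
    T.trm k r = (0, 0, 0, 0) ∨ (0 < (T.trm k r).2.2.2 ∧ ∀ p < 64,
      dg (T.trm k r).2.1 (T.cx r p) ≤ dg (T.trm k r).1 (T.cx r p) ∧
      dg (T.trm k r).1 (T.cx r p) ≤ (T.trm k r).2.2.2) := by
  unfold trm
  by_cases hk : k < (T.TM (T.ty r)).length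
  · right
    rw [List.getD_eq_getElem _ _ hk]
    have hG' := hG
    simp only [ckG, List.all_eq_true, List.mem_range, Bool.and_eq_true] at hG'
    refine ⟨Nat.blt_eq ▸ (hG' _ (h.tyr hr) _ (List.getElem_mem hk)).1, fun p hp => ?_⟩
    exact okT hG (h.tyr hr) (h.cx_lt hr hp) _ (List.getElem_mem hk)
  · left
    rw [List.getD_eq_default _ _ (by omega)]

theorem mu_nonneg (k r : Nat) : 0 ≤ T.mu k r := by
  unfold mu; split_ifs <;> positivity

theorem Gf_nonneg (k r p : Nat) : 0 ≤ T.Gf k r p := by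
  unfold Gf; split_ifs <;> positivity

theorem Gf_le (h : T.Good) (hG : T.ckG = true) (k r p : Nat) : T.Gf k r p ≤ T.Cf k r p := by
  unfold Gf Cf
  split_ifs with hr
  · rcases trm_cases h hG (k := k) hr.1 with h0 | ⟨hD, h1⟩
    · rw [h0]
    · exact div_le_div_of_nonneg_right (by exact_mod_cast (h1 p hr.2).1) (by positivity)
  · exact le_refl _

theorem Cf_le (h : T.Good) (hG : T.ckG = true) (k r p : Nat) : T.Cf k r p ≤ 1 := by
  unfold Cf
  split_ifs with hr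
  · rcases trm_cases h hG (k := k) hr.1 with h0 | ⟨hD, h1⟩
    · rw [h0]; simp
    · exact div_le_one_of_le₀ (by exact_mod_cast (h1 p hr.2).2) (by positivity)
  · norm_num

theorem len_le (h : T.Good) {r : Nat} (hr : r < 16) : (T.TM (T.ty r)).length ≤ T.KM :=
  Finset.single_le_sum (f := fun t => (T.TM t).length) (fun _ _ => Nat.zero_le _)
    (Finset.mem_range.2 (h.tyr hr))

theorem GX_real (h : T.Good) (i m : Nat) : ((T.GX i m : ℤ) : ℝ) =
    ∑ k ∈ range T.KM, ((tv T.PA T.PB i (T.cx (r4 m) (pa m)) (T.cx (r4 m) (pb m))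
      (T.cx (r4 m) (pc m)) (T.trm k (r4 m)) : ℤ) : ℝ) := by
  rw [GX, LV_sum, list_range _ (0, 0, 0, 0) (tv_zero _ _ _ _ _ _) _ T.KM (len_le h (r4_lt m))]
  push_cast
  rfl

theorem tv_gV (h : T.Good) (hG : T.ckG = true) (hA : 0 < T.PA) (k m : Nat) :
    ((tv T.PA T.PB (m.testBit 34).toNat (T.cx (r4 m) (pa m)) (T.cx (r4 m) (pb m))
      (T.cx (r4 m) (pc m)) (T.trm k (r4 m)) : ℤ) : ℝ) =
    (T.PA : ℝ) * gV (T.mu k) (T.Gf k) (T.Cf k) ((T.PB : ℝ) / T.PA) m := by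
  have hA' : (T.PA : ℝ) ≠ 0 := by positivity
  have hr : m % 16 < 16 := Nat.mod_lt _ (by norm_num)
  rcases trm_cases h hG (k := k) (r4_lt m) with h0 | ⟨hD, -⟩
  · have e1 : T.mu k (m % 16) = 0 := by
      have h0' : T.trm k (m % 16) = (0, 0, 0, 0) := h0
      rw [mu, if_pos hr, h0']
      simp [U.wt]
    rw [h0, tv_zero]
    unfold gV
    rw [e1]
    simp
  · have hD' : (((T.trm k (m % 16)).2.2.2 : Nat) : ℝ) ≠ 0 := by
      have : 0 < (T.trm k (m % 16)).2.2.2 := hD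
      positivity
    have e : ∀ p q, T.Cf k (m % 16) (m / p % 64) =
        ((dg (T.trm k (m % 16)).1 (T.cx (m % 16) (m / p % 64)) : Nat) : ℝ) /
          ((T.trm k (m % 16)).2.2.2 : Nat) ∧ T.Gf k (m % 16) (m / q % 64) =
        ((dg (T.trm k (m % 16)).2.1 (T.cx (m % 16) (m / q % 64)) : Nat) : ℝ) /
          ((T.trm k (m % 16)).2.2.2 : Nat) := fun p q =>
      ⟨if_pos ⟨hr, Nat.mod_lt _ (by norm_num)⟩, if_pos ⟨hr, Nat.mod_lt _ (by norm_num)⟩⟩
    have ew : T.mu k (m % 16) = (((T.trm k (m % 16)).2.2.1 : Nat) : ℝ) *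
        ((((T.trm k (m % 16)).2.2.2 : Nat) : ℝ) * ((T.trm k (m % 16)).2.2.2 : Nat) *
          ((T.trm k (m % 16)).2.2.2 : Nat)) := by
      rw [mu, if_pos hr]
      unfold U.wt
      push_cast
      ring
    unfold gV
    rw [(e 16 16).1, (e 16 16).2, (e (2 ^ 10) (2 ^ 10)).1, (e (2 ^ 10) (2 ^ 10)).2,
      (e (2 ^ 20) (2 ^ 20)).1, (e (2 ^ 20) (2 ^ 20)).2, ew]
    exact tvr T.PA T.PB hA' _ _ hD' _ _ _ _ _ _ _

theorem tv_dV (h : T.Good) (hG : T.ckG = true) (p q k m : Nat) :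
    ((tv p q 2 (T.cx (r4 m) (pa m)) (T.cx (r4 m) (pb m))
      (T.cx (r4 m) (pc m)) (T.trm k (r4 m)) : ℤ) : ℝ) =
    dV (T.mu k) (T.Gf k) (T.Cf k) m := by
  have hr : m % 16 < 16 := Nat.mod_lt _ (by norm_num)
  rcases trm_cases h hG (k := k) (r4_lt m) with h0 | ⟨hD, -⟩
  · have e1 : T.mu k (m % 16) = 0 := by
      have h0' : T.trm k (m % 16) = (0, 0, 0, 0) := h0
      rw [mu, if_pos hr, h0']
      simp [U.wt]
    rw [h0, tv_zero]
    unfold dV
    rw [e1]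
    simp
  · have hD' : (((T.trm k (m % 16)).2.2.2 : Nat) : ℝ) ≠ 0 := by
      have : 0 < (T.trm k (m % 16)).2.2.2 := hD
      positivity
    have e : ∀ p q, T.Cf k (m % 16) (m / p % 64) =
        ((dg (T.trm k (m % 16)).1 (T.cx (m % 16) (m / p % 64)) : Nat) : ℝ) /
          ((T.trm k (m % 16)).2.2.2 : Nat) ∧ T.Gf k (m % 16) (m / q % 64) =
        ((dg (T.trm k (m % 16)).2.1 (T.cx (m % 16) (m / q % 64)) : Nat) : ℝ) /
          ((T.trm k (m % 16)).2.2.2 : Nat) := fun p q =>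
      ⟨if_pos ⟨hr, Nat.mod_lt _ (by norm_num)⟩, if_pos ⟨hr, Nat.mod_lt _ (by norm_num)⟩⟩
    have ew : T.mu k (m % 16) = (((T.trm k (m % 16)).2.2.1 : Nat) : ℝ) *
        ((((T.trm k (m % 16)).2.2.2 : Nat) : ℝ) * ((T.trm k (m % 16)).2.2.2 : Nat) *
          ((T.trm k (m % 16)).2.2.2 : Nat)) := by
      rw [mu, if_pos hr]
      unfold U.wt
      push_cast
      ring
    unfold dV
    rw [(e 16 16).1, (e 16 16).2, (e (2 ^ 10) (2 ^ 10)).1, (e (2 ^ 10) (2 ^ 10)).2,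
      (e (2 ^ 20) (2 ^ 20)).1, (e (2 ^ 20) (2 ^ 20)).2, ew]
    exact tvd p q _ _ hD' _ _ _ _ _ _

theorem GV_real (h : T.Good) (hG : T.ckG = true) (hA : 0 < T.PA) (m : Nat) :
    ((T.GV m : ℤ) : ℝ) =
    (T.PA : ℝ) * ∑ k ∈ range T.KM, gV (T.mu k) (T.Gf k) (T.Cf k) ((T.PB : ℝ) / T.PA) m := by
  rw [GV, GX_real h, Finset.mul_sum]
  exact Finset.sum_congr rfl fun k _ => tv_gV h hG hA k m

theorem GA_real (h : T.Good) (hG : T.ckG = true) (m : Nat) : ((T.GA m : ℤ) : ℝ) =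
    ∑ k ∈ range T.KM, dV (T.mu k) (T.Gf k) (T.Cf k) m := by
  rw [GA, GX_real h]
  exact Finset.sum_congr rfl fun k _ => tv_dV h hG _ _ k m

/-- Bound for the multipliers. -/
noncomputable def MB (T : UTab) : ℝ := ∑ k ∈ range T.KM, ∑ r ∈ range 16, T.mu k r

theorem MB_nonneg (T : UTab) : 0 ≤ T.MB :=
  Finset.sum_nonneg fun _ _ => Finset.sum_nonneg fun _ _ => mu_nonneg _ _

section
variable {V : Type} [Fintype V]

/-- The inequality of the cubic families. -/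
theorem ev_GV (h : T.Good) (hG : T.ckG = true) (hA : 0 < T.PA) {E : V → V → V → Bool} {w : V → ℝ}
    (ho : Opt E w) :
    (T.PA : ℝ) * ((T.PB : ℝ) / T.PA - L) * Ev 7 w (fun φ => ((T.GA (msk E φ) : ℤ) : ℝ)) -
      2 * (T.PA : ℝ) * T.MB * (L - dens E w) ≤ Ev 7 w (fun φ => ((T.GV (msk E φ) : ℤ) : ℝ)) := by
  have hLd : 0 ≤ L - dens E w := by linarith [dens_le_L ho.free ho.wt]
  have e1 : Ev 7 w (fun φ => ((T.GV (msk E φ) : ℤ) : ℝ)) = (T.PA : ℝ) * ∑ k ∈ range T.KM,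
      Ev 7 w (fun φ => gV (T.mu k) (T.Gf k) (T.Cf k) ((T.PB : ℝ) / T.PA) (msk E φ)) := by
    rw [← Ev_sum, ← Ev_mul]
    exact Ev_congr 7 w fun φ => GV_real h hG hA _
  have e2 : Ev 7 w (fun φ => ((T.GA (msk E φ) : ℤ) : ℝ)) = ∑ k ∈ range T.KM,
      Ev 7 w (fun φ => dV (T.mu k) (T.Gf k) (T.Cf k) (msk E φ)) := by
    rw [← Ev_sum]
    exact Ev_congr 7 w fun φ => GA_real h hG _
  have e3 : ∀ k, Ev 7 w (fun φ => gV (T.mu k) (T.Gf k) (T.Cf k) ((T.PB : ℝ) / T.PA) (msk E φ)) =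
      Ev 7 w (fun φ => gV (T.mu k) (T.Gf k) (T.Cf k) L (msk E φ)) +
      ((T.PB : ℝ) / T.PA - L) * Ev 7 w (fun φ => dV (T.mu k) (T.Gf k) (T.Cf k) (msk E φ)) := by
    intro k
    rw [← Ev_mul, ← Ev_add]
    exact Ev_congr 7 w fun φ => gV_split _ _ _ _ _ _
  have e4 : ∀ k, -(2 * (L - dens E w)) * (∑ r ∈ range 16, T.mu k r) ≤
      Ev 7 w (fun φ => gV (T.mu k) (T.Gf k) (T.Cf k) L (msk E φ)) := by
    intro k
    refine le_trans ?_ (kcV ho (μ := T.mu k) (G := T.Gf k) (C := T.Cf k) (mu_nonneg k)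
      (Gf_nonneg k) (Gf_le h hG k) (Cf_le h hG k))
    have h1 : Ev 7 w (fun φ => T.mu k (msk E φ % 16)) ≤ ∑ r ∈ range 16, T.mu k r := by
      have h2 := Ev_mono 7 w ho.wt.nn (f := fun φ => T.mu k (msk E φ % 16))
        (g := fun _ => ∑ r ∈ range 16, T.mu k r) (fun φ =>
          Finset.single_le_sum (f := fun r => T.mu k r) (fun r _ => mu_nonneg k r)
            (Finset.mem_range.2 (Nat.mod_lt _ (by norm_num))))
      rw [Ev_const 7 w ho.wt.one] at h2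
      exact h2
    have := mul_le_mul_of_nonneg_left h1 hLd
    nlinarith
  rw [e1, e2]
  simp only [e3]
  have e5 := Finset.sum_le_sum (fun k (_ : k ∈ range T.KM) => e4 k)
  rw [← Finset.mul_sum] at e5
  rw [Finset.sum_add_distrib, ← Finset.mul_sum]
  have hA' : (0 : ℝ) ≤ T.PA := by positivity
  have e6 := mul_le_mul_of_nonneg_left e5 hA'
  unfold MB
  nlinarith
end

end UTab

end KC
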