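import Pool.Agent.Helper34.KU.U5
import Pool.Agent.Helper94.KC.HS2

set_option autoImplicit false

/-!
The weighted cubic families in the form used by the final sum.
-/

namespace KC

open KF

theorem fok_GU {T : UTab} {p : ℝ} (h : T.Good) (hG : T.ckG = true) (hA : 0 < T.PA)
    (hp : (T.PA : ℝ) * p = T.PB) : FOK p T.GV (fun m => (T.PA : ℤ) * T.GA m) (fun _ => 0) := by
  refine FOK.of_lin (K := 2 * T.PA * T.MB) fun n E w ho => ?_
  have h1 := UTab.ev_GV h hG hA ho
  have hA' : (T.PA : ℝ) ≠ 0 := by positivity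
  have h2 : (T.PB : ℝ) / T.PA = p := by rw [← hp]; field_simp
  rw [h2] at h1
  rw [Em_const E ho.wt, Em_smul]
  unfold Em
  push_cast
  linarith

theorem ff_U {T : UTab} {p : ℝ} (h : T.Good) (hG : T.ckG = true) (hA : 0 < T.PA)
    (hp : (T.PA : ℝ) * p = T.PB) :
    FF p (fam treeM.tr T.GV) (fun m => (T.PA : ℤ) * fam treeM.tr T.GA m) (fun _ => 0) :=
  (FF.of_fam invTM (fok_GU h hG hA hp) (UTab.GV_inv h)
    (fun W hW m hm => by rw [UTab.GA_inv h W hW m hm]) (fun _ _ _ _ => rfl)).congr (fun _ => rfl)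
    (fun m => (fam_smul _ _ _ m).symm) (fun m => (fam_zero _ m).symm)

end KC
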